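import Pool.Agent.Helper3.TN.GoalsZ

/-!
# Project TN (MP_a41896_nt), IXN: the index
-/

set_option autoImplicit false

open MvPolynomial

namespace Pool.Agent.Helper3.TN.IXN

open Pool.Agent.Helper29.BL Pool.Agent.Helper92.Ru Pool.Agent.Helper42.SG
open Pool.Agent.Helper68.VN Pool.Agent.Helper3.TN

theorem t (hT : TAYX) (hQ : QIXB) : Pool.Agent.Helper3.TN.IXN := by
  classical
  intro K _ _ σ _ _ W n a g ξ ψ X Ψ Q f b d θ hTay hψ hd hdeg he hf
  obtain ⟨B, -, hB⟩ := hT K σ W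
  obtain ⟨X', Ψ', hT', -⟩ := hB n ξ ψ hψ
  refine hQ K σ W n ξ ψ X' Ψ' Q f b d θ hT' (fun j i => (hψ j i).2) hd ?_ hf
  rw [← he]
  have hv : ∀ j : Fin n, ((j, a) : Fin n × σ) ∉ Q.vars := by
    intro j hm
    exact mem_vars_iff_degreeOf_ne_zero.1 hm (hdeg j)
  simp only [aeval_def]
  refine eval₂Hom_congr' rfl (fun h hh _ => ?_) rfl
  have hne : h.2 ≠ a := fun h' => hv h.1 (by rw [← h']; exact hh)
  rw [hT'.eqX, hTay.eqX h.1 h.2 hne]

end Pool.Agent.Helper3.TN.IXN
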