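import Pool.Agent.Helper3.TN.ZEN
import Pool.Agent.Helper42.TN.DefsF

/-!
# Project TN (MP_a41896_nt): the zero estimate ZENF (hypersurfaces without flat direction)
-/

set_option autoImplicit false

open MvPolynomial

namespace Pool.Agent.Helper3.TN.ZENF

open WeierstrassCurve Height
open Pool.Agent.Helper29.BL Pool.Agent.Helper92.Ru Pool.Agent.Helper42.SG
open Pool.Agent.Helper68.VN
open Pool.Agent.Helper60.HC (Lo)
open Pool.Agent.Helper92.ZH
open Pool.Agent.Helper42.TN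
open Pool.Agent.Helper3.TN
open Pool.Agent.Helper3.TN.ZEN (Bf_cn IndGe_mono degreeOf_spc)

/-- **ZENF**. -/
theorem t (hI : S_INDF) (hNRN : NRN) (hIXN : IXN) (hWRZ : WRZ) (hSPZ : SPZ) (hBRUA : BRUA) :
    Pool.Agent.Helper42.TN.ZENF := by
  classical
  intro D0 m
  obtain ⟨h0, hh0, hI⟩ := hI D0 m
  refine ⟨h0, hh0, ?_⟩
  intro K _ _ σ _ _ W hW n hn hcard hmn C0 hC0 M CA hM hCA
  obtain ⟨w0, C1, hw0, hC1, hN⟩ := hNRN K σ W n M D0 C0 CA hn hM hC0 hCA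
  obtain ⟨s0, C2, hs0, hC2, hZ⟩ := hWRZ K (Fin n × σ) σ w0
  obtain ⟨w1, hw1d⟩ : ∃ w1 : ℕ, w1 = s0 * w0 := ⟨_, rfl⟩
  have hw1 : 1 ≤ w1 := by
    rw [hw1d]
    exact Nat.one_le_iff_ne_zero.mpr (Nat.mul_ne_zero (by omega) (by omega))
  have hw1' : (1 : ℝ) ≤ w1 := by exact_mod_cast hw1
  obtain ⟨D2, Kc, ω, hKc, hω, hω1, hR⟩ := hBRUA K σ n (1 / (2 * w1)) (by positivity)
  obtain ⟨CH, hCH⟩ : ∃ CH : ℝ, CH = s0 * (C1 + C2 * w0) + 1 := ⟨_, rfl⟩
  have hCH1 : 1 ≤ CH := by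
    rw [hCH]
    have : 0 ≤ (s0 : ℝ) * (C1 + C2 * w0) := by positivity
    linarith
  obtain ⟨K1, hK1d⟩ : ∃ K1 : ℝ, K1 = max (max (2 * (s0 : ℝ)) h0) (1 / ω) := ⟨_, rfl⟩
  have hK1a : 2 * (s0 : ℝ) ≤ K1 := hK1d ▸ (le_max_left _ _).trans (le_max_left _ _)
  have hK1h : (h0 : ℝ) ≤ K1 := hK1d ▸ (le_max_right _ _).trans (le_max_left _ _)
  have hK1b : 1 / ω ≤ K1 := hK1d ▸ le_max_right _ _
  have hs0' : (1 : ℝ) ≤ s0 := by exact_mod_cast hs0
  refine ⟨max w0 D2, max C1 (Kc * CH), K1, le_max_of_le_left hC1, ?_⟩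
  intro a e S c ξ ψ x0 ψ0 g g0 X Ψ hnf hc hint hhouse hsup hTay hψ hψ0 hirr hirr0 hdg hdg0 hpg hpg0
    hhg hhg0 hx0 hqS hlac hbig
  have hK1 : (1 : ℝ) ≤ K1 := by linarith
  have hq1 : ∀ j, (1 : ℝ) ≤ 4 ^ e j := fun j => one_le_pow₀ (by norm_num)
  have hS1 : 1 ≤ S := (hq1 ⟨0, hn⟩).trans (hqS _)
  have hS0 : 0 ≤ S := by linarith
  have hG : ∀ j, Gd D0 (C0 * (S / 4 ^ e j)) a (g j) := fun j =>
    ⟨hdg j, Nat.one_le_iff_ne_zero.2 (hpg j a), hhg j⟩
  have hG0 : Gd D0 (C0 * S) a g0 := ⟨hdg0, Nat.one_le_iff_ne_zero.2 (hpg0 a), hhg0⟩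
  have hind : IndC W a g g0 c := by
    intro Ω _ _ _ X' Ψ' X0' Ψ0' hOn hX' hX0' hai
    refine hI K σ W hW n hcard hmn a g g0 hnf hirr hirr0 hdg hdg0 hpg hpg0 M e c ?_ hc ?_
      Ω X' Ψ' X0' Ψ0' hOn hX' hX0' hai
    · intro j
      have h1 : (h0 : ℝ) ≤ 4 ^ e j := hK1h.trans (hbig j)
      exact_mod_cast h1
    · intro α hα
      by_contra hcon
      exact hα (hsup α hcon)
  obtain ⟨R, hR0, hRa, hRa0, hRd, hRr, hRH, hRf⟩ := hN e c a g g0 S hqS hint hhouse hG hG0 hind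
  by_cases hsp : spc x0 R = 0
  · right
    left
    obtain ⟨p, hp0, hpd, hpH, hpe⟩ := hSPZ K (Fin n × σ) σ R x0 hR0 hsp
    refine ⟨p, hp0, fun i => ((hpd i).trans (hRr i)).trans (le_max_left _ _), ?_, hpe,
      (hpH.trans hRH).trans (mul_le_mul_of_nonneg_right (le_max_left _ _) hS0)⟩
    intro i hi
    have hia : i = a := by
      by_contra h
      exact hi (Finset.mem_erase.2 ⟨h, Finset.mem_univ _⟩)
    have h1 := hpd a
    rw [hRa0] at h1
    rw [hia]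
    omega
  by_cases hvan : ∃ α : Fin n × σ →₀ ℕ, wt (fun h : Fin n × σ => 4 ^ e h.1) α < 1 ∧
        MvPowerSeries.coeff α (PT W n M 1 e c (fun _ _ => false) X Ψ x0 ψ0) ≠ 0
  · exact Or.inr (Or.inr hvan)
  left
  push Not at hvan
  have hOn : OnB W X Ψ (cn _ x0) (cn (MvPowerSeries (Fin n × σ) K) ψ0) :=
    ⟨hTay.on, Bf_cn W x0 ψ0 hψ0⟩
  have hg0A : aeval (cn (MvPowerSeries (Fin n × σ) K) x0) g0 = 0 := by
    have h5 : (cn (MvPowerSeries (Fin n × σ) K) x0) =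
        algebraMap K (MvPowerSeries (Fin n × σ) K) ∘ x0 := rfl
    have h6 : aeval x0 g0 = 0 := hx0
    rw [h5, aeval_algebraMap_apply, h6, map_zero]
  obtain ⟨b, hb⟩ := hRf (MvPowerSeries (Fin n × σ) K) X Ψ _ _ hOn hTay.rel hg0A
  have hcomp : aeval (fun h : Fin n × σ => X h.1 h.2) (spc x0 R) =
      aeval (Sum.elim (fun h : Fin n × σ => X h.1 h.2)
        (cn (MvPowerSeries (Fin n × σ) K) x0)) R := by
    have h2 : (aeval (fun h : Fin n × σ => X h.1 h.2)).comp (spc x0) =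
        (aeval (Sum.elim (fun h : Fin n × σ => X h.1 h.2)
          (cn (MvPowerSeries (Fin n × σ) K) x0)) :
          MvPolynomial ((Fin n × σ) ⊕ σ) K →ₐ[K] MvPowerSeries (Fin n × σ) K) := by
      apply MvPolynomial.algHom_ext
      rintro (h | i)
      · simp [spc]
      · simp [spc, cn]
    exact DFunLike.congr_fun h2 R
  have hdeg0 : ∀ j, (spc x0 R).degreeOf (j, a) = 0 := by
    intro j
    have h1 := degreeOf_spc x0 R (j, a)
    rw [hRa] at h1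
    exact Nat.le_zero.mp h1
  have hI1 : IndGe (fun h : Fin n × σ => 4 ^ e h.1) (fun h => ξ h.1 h.2) 1 (spc x0 R) :=
    hIXN K σ W n a g ξ ψ X Ψ (spc x0 R)
      (PT W n M 1 e c (fun _ _ => false) X Ψ x0 ψ0) b (fun h => 4 ^ e h.1) 1 hTay hψ
      (fun h => Nat.one_le_pow _ _ (by norm_num)) hdeg0 (hcomp.trans hb) hvan
  have hfl : ∀ j, 4 ^ e j ≤ ⌊S⌋₊ := by
    intro j
    apply Nat.le_floor
    push_cast
    exact hqS j
  have hfl1 : 1 ≤ ⌊S⌋₊ := Nat.le_floor (by simpa using hS1)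
  have hflS : ((⌊S⌋₊ : ℕ) : ℝ) ≤ S := Nat.floor_le hS0
  obtain ⟨V, hV, hVd, hVH, hVI⟩ := hZ R x0 (w0 * ⌊S⌋₊)
    (fun h => 4 ^ e h.1) (fun h => ξ h.1 h.2) 1 K1
    (Nat.one_le_iff_ne_zero.mpr (Nat.mul_ne_zero (by omega) (by omega)))
    (fun h => (hRd h).trans (Nat.mul_le_mul_left _ (hfl _)))
    hRr (by linarith) (fun h => by
      push_cast
      exact hbig h.1) hsp hI1
  obtain ⟨j, f, hf, hfd, hfa, hfe, hfh⟩ := hR a (fun j => 4 ^ e j) ξ (CH * S) w1 V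
    (by
      intro j
      refine ⟨Nat.one_le_pow _ _ (by norm_num), ?_⟩
      push_cast
      refine (hqS j).trans ?_
      nlinarith)
    (by
      intro j j' hjj
      have h1 := hlac j j' hjj
      have h2 : 1 ≤ ω * K1 := by
        have h3 : ω * (1 / ω) ≤ ω * K1 := mul_le_mul_of_nonneg_left hK1b hω.le
        rwa [mul_one_div_cancel hω.ne'] at h3
      have h4 : (0 : ℝ) < 4 ^ e j' := by positivity
      push_cast
      calc (4 : ℝ) ^ e j' = 1 * 4 ^ e j' := (one_mul _).symm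
        _ ≤ (ω * K1) * 4 ^ e j' := mul_le_mul_of_nonneg_right h2 h4.le
        _ = ω * (K1 * 4 ^ e j') := by ring
        _ ≤ ω * 4 ^ e j := mul_le_mul_of_nonneg_left h1 hω.le)
    hV (by
      intro j
      have h1 := hVd (j, a)
      rw [hRa, mul_zero] at h1
      omega) (by linarith) (by
      intro h
      have h1 : V.degreeOf h ≤ 4 ^ e h.1 * w1 := by
        refine (hVd h).trans ?_
        refine (Nat.mul_le_mul_left _ (hRd _)).trans (le_of_eq ?_)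
        rw [hw1d]
        ring
      exact_mod_cast h1) (by
      refine hVH.trans ?_
      have h1 : Real.log (PH R) + C2 * ((w0 * ⌊S⌋₊ : ℕ) : ℝ) ≤ (C1 + C2 * w0) * S := by
        push_cast
        have h3 : C2 * ((w0 : ℝ) * (⌊S⌋₊ : ℕ)) ≤ C2 * (w0 * S) := by gcongr
        linarith
      calc (s0 : ℝ) * (Real.log (PH R) + C2 * ((w0 * ⌊S⌋₊ : ℕ) : ℝ))
          ≤ s0 * ((C1 + C2 * w0) * S) :=
            mul_le_mul_of_nonneg_left h1 (by positivity)
        _ = (CH - 1) * S := by rw [hCH]; ring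
        _ ≤ CH * S := by nlinarith
        _ = CH * S * 1 := (mul_one _).symm
        _ ≤ CH * S * w1 :=
            mul_le_mul_of_nonneg_left hw1' (by positivity)) (by
      apply IndGe_mono hVI
      have h1 : (s0 : ℝ) / K1 ≤ 1 / 2 := by
        rw [div_le_div_iff₀ (by linarith) (by norm_num)]
        linarith
      have h2 : 1 / (2 * (w1 : ℝ)) * w1 = 1 / 2 := by
        have : (w1 : ℝ) ≠ 0 := by linarith
        field_simp
      rw [h2]
      linarith)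
  have h1 : (0 : ℝ) < 4 ^ e j := by positivity
  push_cast at hfh
  have h2 : Real.log (PH f) ≤ Kc * CH * (S / 4 ^ e j) := by
    rw [← mul_div_assoc, le_div_iff₀ h1]
    linarith
  refine ⟨j, f, hf, fun i => (hfd i).trans (le_max_right _ _), ?_, hfe,
    h2.trans (mul_le_mul_of_nonneg_right (le_max_right _ _) (by positivity))⟩
  intro i hi
  have hia : i = a := by
    by_contra h
    exact hi (Finset.mem_erase.2 ⟨h, Finset.mem_univ _⟩)
  rw [hia]
  exact hfa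

end Pool.Agent.Helper3.TN.ZENF
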