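import Pool.Agent.Helper92.ZH.Main
import Pool.Agent.Helper3.TN.ZEN
import Pool.Agent.Helper3.TN.ZENF
import Pool.Agent.Helper3.TN.IXN
import Pool.Agent.Helper99.TN.ELIM1
import Pool.Agent.Helper57.TN.ELIMN
import Pool.Agent.Helper18.TN.NRN
import Pool.Agent.Helper90.TN.BRUA

/-!
# Project TN (MP_a41896_nt): the zero estimates ZEN, ZENF from the independence only
-/

set_option autoImplicit false

namespace Pool.Agent.Helper3.TN.Main

open Pool.Agent.Helper42.SG Pool.Agent.Helper68.VN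
open Pool.Agent.Helper92.ZH Pool.Agent.Helper3.TN Pool.Agent.Helper92.ZH.Main

theorem th_ELIMN : ELIMN := Pool.Agent.Helper57.TN.ELIMN.t (Pool.Agent.Helper99.TN.ELIM1.t th_RESE)

theorem th_NRN : NRN := Pool.Agent.Helper18.TN.NRN.t th_NQX2 th_ELIMN

theorem th_IXN : Pool.Agent.Helper3.TN.IXN :=
  Pool.Agent.Helper3.TN.IXN.t Pool.Agent.Helper65.VN.TAYX.t_TAYX Pool.Agent.Helper38.VN.QIXB.t_QIXB

theorem th_BRUA : BRUA := Pool.Agent.Helper90.TN.BRUA.t Pool.Agent.Helper81.VN.BRU.t_BRU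

theorem th_ZEN (hI : Pool.Agent.Helper42.TN.S_INDN) : Pool.Agent.Helper42.TN.ZEN :=
  Pool.Agent.Helper3.TN.ZEN.t hI th_NRN th_IXN Pool.Agent.Helper7.VN.t_WRZ
    Pool.Agent.Helper13.ZH.SPZ.t th_BRUA

theorem th_ZENF (hI : Pool.Agent.Helper42.TN.S_INDF) : Pool.Agent.Helper42.TN.ZENF :=
  Pool.Agent.Helper3.TN.ZENF.t hI th_NRN th_IXN Pool.Agent.Helper7.VN.t_WRZ
    Pool.Agent.Helper13.ZH.SPZ.t th_BRUA

end Pool.Agent.Helper3.TN.Main
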