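import Pool.Agent.Helper92.ZH.Goals
import Pool.Agent.Helper42.TN.GoalsT

/-!
# Project TN (MP_a41896_nt): the zero estimate ZEN

`n` blocks on the hypersurfaces `g j = 0`, the constant point on `g0 = 0`, the coordinate `a` is eliminated in all blocks and at
the constant point.  All goals are independent; the allowed hypotheses are named.  Models: `Pool/Agent/Helper44/ZH/NRH.lean`,
`Pool/Agent/Helper46/ZH/LOWH.lean`, `Pool/Agent/Helper28/ZH/ZEH.lean`, `Pool/Agent/Helper14/ZH/BRH.lean`.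
-/

set_option autoImplicit false

open MvPolynomial

namespace Pool.Agent.Helper3.TN

open WeierstrassCurve Height
open Pool.Agent.Helper29.BL Pool.Agent.Helper92.Ru Pool.Agent.Helper42.SG
open Pool.Agent.Helper68.VN
open Pool.Agent.Helper92.ZH
open Pool.Agent.Helper60.HC (Lo)
open Pool.Agent.Helper42.TN

noncomputable section

/-- independence: the block function with the array `c` does not vanish at the generic points of `∏ {g j = 0} × {g0 = 0}`
(all components, all signs) -/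
def IndC {K : Type} [Field K] {σ : Type} [Fintype σ] [DecidableEq σ] (W : σ → Affine K)
    {n M : ℕ} {e : Fin n → ℕ} (a : σ) (g : Fin n → MvPolynomial σ K) (g0 : MvPolynomial σ K)
    (c : Ix σ n M 1 e → K) : Prop :=
  ∀ (Ω : Type) [Field Ω] [Algebra K Ω] [IsAlgClosed Ω] (X Ψ : Fin n → σ → Ω)
    (X0 Ψ0 : σ → Ω), OnB W X Ψ X0 Ψ0 → (∀ j, aeval (X j) (g j) = 0) → aeval X0 g0 = 0 →
    AlgebraicIndependent K (Sum.elim (fun h : Fin n × {i : σ // i ≠ a} => X h.1 h.2)
      (fun i : {i : σ // i ≠ a} => X0 i)) →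
    P0B W n M 1 e c X Ψ X0 Ψ0 ≠ 0

/-- **ELIM1** (elimination of the variable `em a` from `F`, by the polynomial `g` in the variables `em i`, `i : σ`).
Hypothesis allowed: RESE (`Helper92.ZH.RESE`).
PROOF. RESE for `h0 = em a`, `g := rename em g`, `Q := F`. `(rename em g).degreeOf (em i) = g.degreeOf i` (`degreeOf_rename_of_injective`), `= 0` for the other variables, `PH (rename em g) = PH g` (`Pool.Agent.Helper44.ZH.NRH.PH_rename`, `deg_out`, same file).
If `R = 0` then `log PH R = 0` (`log_PH_zero`, see `Helper46/ZH/LOWH.lean`) and the right side is `≥ 0`. MULTIPLE: `R = α * rename em g + b * F`, and `aeval x (rename em g) = aeval (x ∘ em) g = 0` (`aeval_rename`).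
NON-VANISHING: last part of RESE. The condition on `p`: `p` has degree `0` in the variables outside the range of `em` (the bound is `0` there) and in `em a`; so `p = rename (fun i : {i // i ≠ a} => em i) p'`
(`exists_rename_eq_of_vars_subset_range`), `aeval x p = aeval (fun i => x (em i)) p' ≠ 0` (algebraically independent). `aeval (update x (em a) t) (rename em g) = aeval (update (x ∘ em) a t) g` (`Function.update_comp_eq_of_injective`). -/
def ELIM1 : Prop :=
  ∀ (K : Type) [Field K] [NumberField K] (σ V : Type) [Fintype σ] [DecidableEq σ] [Fintype V]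
    [DecidableEq V] (D0 : ℕ), ∃ C : ℝ, 0 ≤ C ∧
    ∀ (a : σ) (em : σ → V) (g : MvPolynomial σ K) (F : MvPolynomial V K) (N0 N : ℕ),
      Function.Injective em → (∀ i, g.degreeOf i ≤ D0) → 1 ≤ g.degreeOf a →
      F.degreeOf (em a) ≤ N0 → N0 ≤ N → 1 ≤ N → (∀ v, F.degreeOf v ≤ N) →
      ∃ R : MvPolynomial V K, R.degreeOf (em a) = 0 ∧
        (∀ v, v ∉ Set.range em → R.degreeOf v ≤ D0 * F.degreeOf v) ∧
        (∀ i, R.degreeOf (em i) ≤ N0 * D0 + D0 * F.degreeOf (em i)) ∧
        Real.log (PH R) ≤ N0 * Real.log (PH g) + D0 * Real.log (PH F) + C * N ∧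
        (∃ b : MvPolynomial V K, ∀ (A : Type) [CommRing A] [Algebra K A] (x : V → A),
          aeval (fun i => x (em i)) g = 0 → aeval x R = aeval x b * aeval x F) ∧
        ∀ (Ω : Type) [Field Ω] [Algebra K Ω] [IsAlgClosed Ω] (x : V → Ω),
          AlgebraicIndependent K (fun i : {i : σ // i ≠ a} => x (em i)) →
          (∀ t : Ω, aeval (Function.update (fun i => x (em i)) a t) g = 0 →
            aeval (Function.update x (em a) t) F ≠ 0) → aeval x R ≠ 0

/-- **ELIMN** (elimination of the variables `em (k, a)`, `k : κ`, one after the other, by the polynomials `G k` in the variables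
`em (k, i)`). Hypothesis allowed: ELIM1.
PROOF. For a finite set `s` of indices `k` let `P(s)` be the statement: there are `w_s ≥ 1`, `C_s ≥ 0` (depending on `K, σ, V, D0, w, C0, |s|` only) and for all data an `R` with: `R.degreeOf (em (k, a)) = 0` for `k ∈ s`; `R.degreeOf (em (k, i)) ≤ w_s * q k` for all `k, i`; `log PH R ≤ C_s (log PH F + S)`; the multiple property with
the hypothesis on `G k` only for `k ∈ s`; and: if the `x (em (k, i))`, `i ≠ a`, (all `k`) are algebraically independent and for all `y` which are equal to `x` at all variables except the `em (k, a)`, `k ∈ s`, and with `G k (y) = 0` for `k ∈ s`, `aeval y F ≠ 0`, then `aeval x R ≠ 0`.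
Induction on `s` (`Finset.induction_on`; or induction on a natural number `r` with `κ = Fin N`, `s = {k < r}`; to have uniform constants take `w_(r+1) := 2 D0 w_r + 1`, `C_(r+1) := ..` and quantify them before the data). `s = ∅`: `R = F`. STEP `s + k`: ELIM1 for `em := fun i => em (k, i)`, `g := G k`, `F := R_s`, `N0 := w_s q k`, `N := w_s * ⌊S⌋₊` (`q k ≤ S`, so `q k ≤ ⌊S⌋₊`, `1 ≤ ⌊S⌋₊`).
Degrees: `≤ 2 D0 w_s q k'`; `R.degreeOf (em (k', a)) ≤ D0 * 0 = 0` for `k' ∈ s`. Height: `N0 log PH (G k) ≤ w_s q k C0 S / q k = w_s C0 S`, `C N ≤ C w_s S`. Non-vanishing: for `t` with `G k = 0` at `x' := update x (em (k, a)) t` use the property of `R_s` at `x'`: a `y` which is equal to `x'` except at the `em (k', a)`, `k' ∈ s`, satisfies `G k (y) = G k (x') = 0`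
(`k ∉ s`, the variables of `G k` are the `em (k, i)`), and is equal to `x` except at the `em (k', a)`, `k' ∈ s + k`. The independence does not involve the changed coordinates. If `κ` is empty: `S ≥ 0` is needed for nothing; `R = F`, `C' = 1` requires `0 ≤ S`: it is a hypothesis. -/
def ELIMN : Prop :=
  ∀ (K : Type) [Field K] [NumberField K] (σ V κ : Type) [Fintype σ] [DecidableEq σ] [Fintype V]
    [DecidableEq V] [Fintype κ] [DecidableEq κ] (D0 w : ℕ) (C0 : ℝ), 0 ≤ C0 →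
    ∃ (w' : ℕ) (C' : ℝ), 0 ≤ C' ∧
    ∀ (a : σ) (em : κ × σ → V) (G : κ → MvPolynomial σ K) (F : MvPolynomial V K) (q : κ → ℕ)
      (S : ℝ), Function.Bijective em → (∀ k, 1 ≤ q k) → (∀ k, (q k : ℝ) ≤ S) → 0 ≤ S →
      (∀ k i, (G k).degreeOf i ≤ D0) → (∀ k, 1 ≤ (G k).degreeOf a) →
      (∀ k, Real.log (PH (G k)) ≤ C0 * (S / q k)) →
      (∀ k i, F.degreeOf (em (k, i)) ≤ w * q k) →
      ∃ R : MvPolynomial V K, (∀ k, R.degreeOf (em (k, a)) = 0) ∧
        (∀ k i, R.degreeOf (em (k, i)) ≤ w' * q k) ∧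
        Real.log (PH R) ≤ C' * (Real.log (PH F) + S) ∧
        (∃ b : MvPolynomial V K, ∀ (A : Type) [CommRing A] [Algebra K A] (x : V → A),
          (∀ k, aeval (fun i => x (em (k, i))) (G k) = 0) → aeval x R = aeval x b * aeval x F) ∧
        ∀ (Ω : Type) [Field Ω] [Algebra K Ω] [IsAlgClosed Ω] (x : V → Ω),
          AlgebraicIndependent K (fun h : κ × {i : σ // i ≠ a} => x (em (h.1, h.2))) →
          (∀ y : V → Ω, (∀ k i, i ≠ a → y (em (k, i)) = x (em (k, i))) →
            (∀ k, aeval (fun i => y (em (k, i))) (G k) = 0) → aeval y F ≠ 0) → aeval x R ≠ 0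

/-- **NRN** (the norm polynomial). Hypotheses allowed: NQX2 (`Helper92.ZH`), ELIMN.
PROOF. NQX2 (`δ = 1`, `A := CA * S`, `sqB e ≤ n S`): `F := Q`, degrees `ddB`: `nsg (2M+1) 4^(e j)` in `inl (j, i)`, `nsg (2nM+1)` in `inr i`; `w := nsg σ n * (2 n M + 2 M + 1)`. ELIMN with `V = (Fin n × σ) ⊕ σ`, `κ = Option (Fin n)`, `em (some j, i) = inl (j, i)`, `em (none, i) = inr i`, `G (some j) = g j`, `G none = g0`,
`q (some j) = 4^(e j)`, `q none = 1` (`1 ≤ 4^(e j) ≤ S`, `n ≥ 1`). LAST PART: by the multiple property (`x = Sum.elim (..) X0`) `aeval R = aeval b * ∏_ε P0B(εΨ)`, and the factor `ε = 1` is `P0B W .. X Ψ ..`.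
`R ≠ 0`: choose an algebraically closed `Ω` and `x : V → Ω` with all coordinates algebraically independent (`Pool.Agent.Helper44.ZH.NRH.exists_generic`); for `y` as in ELIMN put `X j i := y (inl (j, i))`, `X0 i := y (inr i)`, choose square roots `Ψ`, `Ψ0` of `Bf`; `aeval y Q = ∏_ε P0B(.., εΨ, ..)` and each factor is not `0` by IndC
(`(εΨ)² = Ψ²`, the independence is that of a subfamily of the `x v`). So `aeval x R ≠ 0`. -/
def NRN : Prop :=
  ∀ (K : Type) [Field K] [NumberField K] (σ : Type) [Fintype σ] [DecidableEq σ]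
    (W : σ → Affine K), ∀ (n M D0 : ℕ) (C0 CA : ℝ), 1 ≤ n → 1 ≤ M → 0 ≤ C0 → 0 ≤ CA →
    ∃ (w : ℕ) (C' : ℝ), 1 ≤ w ∧ 0 ≤ C' ∧
      ∀ (e : Fin n → ℕ) (c : Ix σ n M 1 e → K) (a : σ) (g : Fin n → MvPolynomial σ K)
        (g0 : MvPolynomial σ K) (S : ℝ), (∀ j, (4 : ℝ) ^ e j ≤ S) → (∀ α, IsIntegral ℤ (c α)) →
        (∀ α, NumberField.house (c α) ≤ Real.exp (CA * S)) →
        (∀ j, Gd D0 (C0 * (S / 4 ^ e j)) a (g j)) → Gd D0 (C0 * S) a g0 → IndC W a g g0 c →
        ∃ R : MvPolynomial ((Fin n × σ) ⊕ σ) K, R ≠ 0 ∧ (∀ j, R.degreeOf (Sum.inl (j, a)) = 0) ∧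
          R.degreeOf (Sum.inr a) = 0 ∧
          (∀ h : Fin n × σ, R.degreeOf (Sum.inl h) ≤ w * 4 ^ e h.1) ∧
          (∀ i : σ, R.degreeOf (Sum.inr i) ≤ w) ∧ Real.log (PH R) ≤ C' * S ∧
          ∀ (A : Type) [CommRing A] [Algebra K A] (X Ψ : Fin n → σ → A) (X0 Ψ0 : σ → A),
            OnB W X Ψ X0 Ψ0 → (∀ j, aeval (X j) (g j) = 0) → aeval X0 g0 = 0 → ∃ b : A,
              aeval (Sum.elim (fun h : Fin n × σ => X h.1 h.2) X0) R =
                P0B W n M 1 e c X Ψ X0 Ψ0 * b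

/-- **IXN** (the index; as `Helper92/ZH/IXH.lean`). Hypotheses allowed: TAYX, QIXB (`Helper68.VN`). -/
def IXN : Prop :=
  ∀ (K : Type) [Field K] [NumberField K] (σ : Type) [Fintype σ] [DecidableEq σ]
    (W : σ → Affine K) (n : ℕ) (a : σ) (g : Fin n → MvPolynomial σ K) (ξ ψ : Fin n → σ → K)
    (X Ψ : Fin n → σ → MvPowerSeries (Fin n × σ) K) (Q : MvPolynomial (Fin n × σ) K)
    (f b : MvPowerSeries (Fin n × σ) K) (d : Fin n × σ → ℕ) (θ : ℝ),
    TayN W ξ ψ a g X Ψ → (∀ j i, ψ j i ^ 2 = Bf (W i) (ξ j i) ∧ ψ j i ≠ 0) →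
    (∀ h, 1 ≤ d h) → (∀ j, Q.degreeOf (j, a) = 0) →
    aeval (fun h : Fin n × σ => X h.1 h.2) Q = f * b →
    (∀ α, wt d α < θ → MvPowerSeries.coeff α f = 0) → IndGe d (fun h => ξ h.1 h.2) θ Q

/-- **BRUA** (block Roth lemma, the polynomial does not involve the variables `(j, a)`). Hypothesis allowed: BRU (`Helper68.VN`).
PROOF. For fixed `a` let `σ' := {i // i ≠ a}` and `D_a, Kc_a, ω_a` the constants of BRU for `σ'`; `D := ∑_a D_a`, `Kc := 1 + ∑_a Kc_a`, `ω := ∏_a ω_a` (`σ` is finite, `ω_a ≤ 1`; if `σ` is empty there is no `a`; any numbers). `p = rename φ p'`, `φ (j, i) = (j, i.val)` (`exists_rename_eq_of_vars_subset_range`; `mem_vars_iff_degreeOf_ne_zero`).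
`PH p = PH p'`, `degreeOf` (`degreeOf_rename_of_injective`), and `IndGe` of `p'` at `ξ' j i = ξ j i.val`: `shiftP ξ (rename φ p') = rename φ (shiftP ξ' p')` (both sides are algebra homomorphisms in `p'`), so the support of `shiftP ξ p` is the image of that of `shiftP ξ' p'` under `Finsupp.mapDomain φ` and the weights are the same
(see `Pool/Agent/Helper14/ZH/BRH.lean`, `Pool/Agent/Helper81/VN/BRU.lean`). BRU: `j`, `f'`; `f := rename Subtype.val f'` has `degreeOf a = 0`, `eval (ξ j) f = eval (ξ' j) f' = 0`, `PH f = PH f'`. -/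
def BRUA : Prop :=
  ∀ (k : Type) [Field k] [NumberField k] (σ : Type) [Fintype σ] [DecidableEq σ] (n : ℕ)
    (ι : ℝ), 0 < ι → ∃ (D : ℕ) (Kc ω : ℝ), 1 ≤ Kc ∧ 0 < ω ∧ ω ≤ 1 ∧
    ∀ (a : σ) (d : Fin n → ℕ) (ξ : Fin n → σ → k) (H W : ℝ) (p : MvPolynomial (Fin n × σ) k),
      (∀ j, 1 ≤ d j ∧ (d j : ℝ) ≤ H) → (∀ j j', j < j' → (d j' : ℝ) ≤ ω * d j) → p ≠ 0 →
      (∀ j, p.degreeOf (j, a) = 0) → 0 < W → (∀ h, (p.degreeOf h : ℝ) ≤ d h.1 * W) →
      Real.log (PH p) ≤ H * W →
      IndGe (fun h : Fin n × σ => d h.1) (fun h => ξ h.1 h.2) (ι * W) p →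
      ∃ (j : Fin n) (f : MvPolynomial σ k), f ≠ 0 ∧ (∀ i, f.degreeOf i ≤ D) ∧
        f.degreeOf a = 0 ∧ eval (ξ j) f = 0 ∧ d j * Real.log (PH f) ≤ Kc * H

end

end Pool.Agent.Helper3.TN
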